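import Mathlib

/-!
# Second-order formulas over Basic Law V: syntax and semantics

Objects, relations of every arity `≥ 1`, and one function symbol `∂` from sets (unary relations)
to objects.  `Rel M n` is the type of `(n+1)`-ary relations on `M`.
-/

namespace H323.BLV

/-- `(n+1)`-ary relations on `M`. -/
abbrev Rel (M : Type) (n : ℕ) : Type := (Fin (n + 1) → M) → Prop

/-- A structure `(M, S₁, S₂, …, ∂)`: `S n` is the collection of `(n+1)`-ary relations, and `ext` is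
the function `∂`, of which only the values on `S 0` (the sets) matter. -/
structure BLStr where
  M : Type
  S : (n : ℕ) → Set (Rel M n)
  ext : Rel M 0 → M

/-- Terms: object variables `x_i` and `∂ X_j` for the set variable `X_j`. -/
inductive Tm (K : ℕ) : Type
  | var : Fin K → Tm K
  | ext : Fin K → Tm K

/-- Arithmetical formulas in `K` object variables and, for each arity `1, …, K+1`, `K` relation
variables: the relation variable `(n, j)` has arity `n + 1`. -/
inductive AF (K : ℕ) : Type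
  | eq : Tm K → Tm K → AF K
  | rel : (n : Fin (K + 1)) → Fin K → (Fin ((n : ℕ) + 1) → Tm K) → AF K
  | neg : AF K → AF K
  | and : AF K → AF K → AF K
  | all : Fin K → AF K → AF K

/-- Assignments of relations to the relation variables. -/
abbrev RVal (M : Type) (K : ℕ) : Type := (n : Fin (K + 1)) → Fin K → Rel M n

/-- Change the value of the relation variable `(n, j)`. -/
def upd {M : Type} {K : ℕ} (V : RVal M K) (n : Fin (K + 1)) (j : Fin K) (X : Rel M n) : RVal M K :=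
  Function.update V n (Function.update (V n) j X)

def Tm.eval {M : Type} {K : ℕ} (d : Rel M 0 → M) (v : Fin K → M) (V : RVal M K) : Tm K → M
  | .var i => v i
  | .ext j => d (V ⟨0, Nat.succ_pos K⟩ j)

/-- Truth of arithmetical formulas. -/
def AF.sat {M : Type} {K : ℕ} (d : Rel M 0 → M) : AF K → (Fin K → M) → RVal M K → Prop
  | .eq s t, v, V => s.eval d v V = t.eval d v V
  | .rel n j ts, v, V => V n j (fun i => (ts i).eval d v V)
  | .neg φ, v, V => ¬ φ.sat d v V
  | .and φ ψ, v, V => φ.sat d v V ∧ ψ.sat d v V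
  | .all i φ, v, V => ∀ x : M, φ.sat d (Function.update v i x) V

/-- Truth of `∃X₁ … ∃X_r θ` (a `Σ¹₁` formula): a block of existential quantifiers over relation
variables, ranging over the relations of the structure, in front of an arithmetical formula. -/
def exB {M : Type} (S : (n : ℕ) → Set (Rel M n)) (d : Rel M 0 → M) {K : ℕ} (θ : AF K) :
    List (Fin (K + 1) × Fin K) → (Fin K → M) → RVal M K → Prop
  | [], v, V => θ.sat d v V
  | p :: bl, v, V => ∃ X ∈ S p.1, exB S d θ bl v (upd V p.1 p.2 X)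

/-- Truth of `∀X₁ … ∀X_r θ` (a `Π¹₁` formula). -/
def allB {M : Type} (S : (n : ℕ) → Set (Rel M n)) (d : Rel M 0 → M) {K : ℕ} (θ : AF K) :
    List (Fin (K + 1) × Fin K) → (Fin K → M) → RVal M K → Prop
  | [], v, V => θ.sat d v V
  | p :: bl, v, V => ∀ X ∈ S p.1, allB S d θ bl v (upd V p.1 p.2 X)

/-- The assignment `v` changed to take the values `a` at the variables listed by `x`. -/
noncomputable def ov {M : Type} {K n : ℕ} (x : Fin (n + 1) → Fin K) (a : Fin (n + 1) → M)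
    (v : Fin K → M) : Fin K → M :=
  Function.extend x a v

/-- Basic Law V: `∂` is injective on the sets of the structure. -/
def BasicLawV (𝔐 : BLStr) : Prop :=
  ∀ X ∈ 𝔐.S 0, ∀ Y ∈ 𝔐.S 0, 𝔐.ext X = 𝔐.ext Y ↔ ∀ a, X a ↔ Y a

/-- Arithmetical comprehension. -/
def ArithComp (𝔐 : BLStr) : Prop :=
  ∀ (K : ℕ) (θ : AF K) (v : Fin K → 𝔐.M) (V : RVal 𝔐.M K), (∀ (n : Fin (K + 1)) (j : Fin K), V n j ∈ 𝔐.S n) →
    ∀ (n : ℕ) (x : Fin (n + 1) → Fin K), Function.Injective x →
      ∃ R ∈ 𝔐.S n, ∀ a, R a ↔ θ.sat 𝔐.ext (ov x a v) V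

/-- `Δ¹₁`-comprehension. -/
def Delta11Comp (𝔐 : BLStr) : Prop :=
  ∀ (K : ℕ) (θ ψ : AF K) (bl bl' : List (Fin (K + 1) × Fin K)) (v : Fin K → 𝔐.M)
    (V : RVal 𝔐.M K), (∀ (n : Fin (K + 1)) (j : Fin K), V n j ∈ 𝔐.S n) →
    ∀ (n : ℕ) (x : Fin (n + 1) → Fin K), Function.Injective x →
      (∀ a, exB 𝔐.S 𝔐.ext θ bl (ov x a v) V ↔ allB 𝔐.S 𝔐.ext ψ bl' (ov x a v) V) →
      ∃ R ∈ 𝔐.S n, ∀ a, R a ↔ exB 𝔐.S 𝔐.ext θ bl (ov x a v) V

/-- The `Σ¹₁`-choice schema. -/
def Sigma11Choice (𝔐 : BLStr) : Prop :=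
  ∀ (K : ℕ) (θ : AF K) (bl : List (Fin (K + 1) × Fin K)) (v : Fin K → 𝔐.M)
    (V : RVal 𝔐.M K), (∀ (n : Fin (K + 1)) (j : Fin K), V n j ∈ 𝔐.S n) →
    ∀ (p : ℕ) (x : Fin (p + 1) → Fin K), Function.Injective x →
    ∀ (q : Fin (K + 1)) (j : Fin K),
      (∀ a, ∃ P ∈ 𝔐.S q, exB 𝔐.S 𝔐.ext θ bl (ov x a v) (upd V q j P)) →
      ∃ R ∈ 𝔐.S (p + 1 + q), ∀ (a : Fin (p + 1) → 𝔐.M), ∀ P ∈ 𝔐.S q,
        (∀ m : Fin ((q : ℕ) + 1) → 𝔐.M, P m ↔ R (Fin.append (m := p + 1) (n := (q : ℕ) + 1) a m)) →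
        exB 𝔐.S 𝔐.ext θ bl (ov x a v) (upd V q j P)

deriving instance Countable for Tm
deriving instance Countable for AF

end H323.BLV
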