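import Mathlib
import Pool.Agent.H323.BLV.Syn

/-!
# The stages

`Q` is the countable set of sequences `ℤ → ℕ` which are periodic with period a power of two; the
group `ℤ` acts by the shift.  A stage is a family of relations on `Q` with an encoding
`d : Rel Q 0 → Q` of the sets of the family.
-/

namespace H323.BLV

@[ext] structure Q : Type where
  s : ℤ → ℕ
  per : ∃ j : ℕ, ∀ m : ℤ, s (m + 2 ^ j) = s m

def sh (m : ℤ) (s : Q) : Q where
  s := fun x => s.s (x + m)
  per := by
    obtain ⟨j, hj⟩ := s.per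
    refine ⟨j, fun x => ?_⟩
    have h := hj (x + m)
    have e : x + 2 ^ j + m = x + m + 2 ^ j := by ring
    show s.s (x + 2 ^ j + m) = s.s (x + m)
    rw [e, h]

theorem sh_sh (m k : ℤ) (s : Q) : sh m (sh k s) = sh (m + k) s := by
  apply Q.ext
  funext x
  show s.s (x + m + k) = s.s (x + (m + k))
  rw [add_assoc]

@[simp] theorem sh_zero (s : Q) : sh 0 s = s := by
  apply Q.ext
  funext x
  show s.s (x + 0) = s.s x
  rw [add_zero]

def q0 : Q where
  s := fun _ => 0
  per := ⟨0, fun _ => rfl⟩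

theorem sh_neg (m : ℤ) (s : Q) : sh (-m) (sh m s) = s := by
  rw [sh_sh]; simp

theorem sh_neg' (m : ℤ) (s : Q) : sh m (sh (-m) s) = s := by
  rw [sh_sh]; simp

theorem periodic_mod (f : ℤ → ℕ) (j : ℕ) (hj : ∀ m : ℤ, f (m + 2 ^ j) = f m) (m : ℤ) :
    f m = f (m % 2 ^ j) := by
  have h1 : Function.Periodic f ((2 : ℤ) ^ j) := hj
  have h2 := h1.int_mul (m / 2 ^ j) (m % 2 ^ j)
  rw [← h2]
  congr 1
  have := Int.emod_add_mul_ediv m (2 ^ j)
  simp only [Int.cast_id]
  linarith [this, mul_comm ((2 : ℤ) ^ j) (m / 2 ^ j)]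

open Classical in
instance : Countable Q := by
  have hinj : Function.Injective
      (fun s : Q => (⟨Nat.find s.per, fun i => s.s (i : ℤ)⟩ : Σ j : ℕ, (Fin (2 ^ j) → ℕ))) := by
    intro s t hst
    simp only at hst
    have h1 := Nat.find_spec s.per
    have h2 := Nat.find_spec t.per
    obtain ⟨h3, h4⟩ := Sigma.mk.inj_iff.1 hst
    apply Q.ext
    funext m
    generalize Nat.find t.per = k at *
    generalize Nat.find s.per = l at *
    subst h3
    rw [periodic_mod s.s _ h1 m, periodic_mod t.s _ h2 m]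
    have h0 := Int.emod_nonneg m (b := 2 ^ l) (by positivity)
    have hb : (m % 2 ^ l).toNat < 2 ^ l := by
      have := Int.emod_lt_of_pos m (b := 2 ^ l) (by positivity)
      zify
      rw [Int.toNat_of_nonneg h0]
      exact_mod_cast this
    have h5 := congrFun (eq_of_heq h4) ⟨(m % 2 ^ l).toNat, hb⟩
    simpa [Int.toNat_of_nonneg h0] using h5
  exact hinj.countable

/-- The action on relations. -/
def shR {n : ℕ} (m : ℤ) (R : Rel Q n) : Rel Q n := fun a => R (fun i => sh (-m) (a i))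

theorem shR_shR {n : ℕ} (m k : ℤ) (R : Rel Q n) : shR m (shR k R) = shR (m + k) R := by
  funext a
  show R (fun i => sh (-k) (sh (-m) (a i))) = R (fun i => sh (-(m + k)) (a i))
  congr 1
  funext i
  rw [sh_sh]
  congr 1
  ring

@[simp] theorem shR_zero {n : ℕ} (R : Rel Q n) : shR 0 R = R := by
  funext a
  simp [shR]

theorem sh_fix_mono {s : Q} {j J : ℕ} (h : j ≤ J) (hs : sh (2 ^ j) s = s) : sh (2 ^ J) s = s := by
  induction J, h using Nat.le_induction with
  | base => exact hs
  | succ J _ ih =>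
    have : (2 : ℤ) ^ (J + 1) = 2 ^ J + 2 ^ J := by ring
    rw [this, ← sh_sh, ih, ih]

theorem shR_fix_mono {n : ℕ} {R : Rel Q n} {j J : ℕ} (h : j ≤ J) (hs : shR (2 ^ j) R = R) :
    shR (2 ^ J) R = R := by
  induction J, h using Nat.le_induction with
  | base => exact hs
  | succ J _ ih =>
    have : (2 : ℤ) ^ (J + 1) = 2 ^ J + 2 ^ J := by ring
    rw [this, ← shR_shR, ih, ih]

theorem exists_fix (s : Q) : ∃ j : ℕ, sh (2 ^ j) s = s := by
  obtain ⟨j, hj⟩ := s.per
  exact ⟨j, Q.ext (funext hj)⟩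

/-- A base relation: the last coordinate is less symmetric than the first one. -/
def Egen (n : ℕ) : Rel Q n :=
  fun a => ∃ m : ℤ, sh m (a 0) = a 0 ∧ sh m (a (Fin.last n)) ≠ a (Fin.last n)

theorem shR_Egen (n : ℕ) (m : ℤ) : shR m (Egen n) = Egen n := by
  have key : ∀ (k m : ℤ) (s : Q), sh k (sh (-m) s) = sh (-m) s ↔ sh k s = s := by
    intro k m s
    have e : sh m (sh k (sh (-m) s)) = sh k s := by
      rw [sh_sh, sh_sh]; congr 1; ring
    constructor
    · intro h
      rw [← e, h, sh_neg']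
    · intro h
      rw [sh_sh, add_comm, ← sh_sh, h]
  funext a
  simp only [shR, Egen, ne_eq, key]

structure Stg where
  F : (n : ℕ) → Set (Rel Q n)
  d : Rel Q 0 → Q

/-- Definable relations over a stage. -/
noncomputable def genf (s : Stg) {K n : ℕ} (θ : AF K) (bl : List (Fin (K + 1) × Fin K))
    (x : Fin (n + 1) → Fin K) (v : Fin K → Q) (V : RVal Q K) : Rel Q n :=
  fun a => exB s.F s.d θ bl (ov x a v) V

structure Good (i : ℕ) (s : Stg) : Prop where
  cnt : ∀ n, (s.F n).Countable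
  cl : ∀ n, ∀ X ∈ s.F n, ∀ m, shR m X ∈ s.F n
  fx : ∀ n, ∀ X ∈ s.F n, ∃ j : ℕ, shR (2 ^ j) X = X
  eqv : ∀ X ∈ s.F 0, ∀ m, s.d (shR m X) = sh m (s.d X)
  inj : ∀ X ∈ s.F 0, ∀ Y ∈ s.F 0, s.d X = s.d Y → X = Y
  lev : ∀ X ∈ s.F 0, ((s.d X).s 0).unpair.1 ≤ i

theorem eval_sh {i : ℕ} {s : Stg} (hs : Good i s) {K : ℕ} (t : Tm K) (m : ℤ) (v : Fin K → Q)
    (V : RVal Q K) (hV : ∀ (n : Fin (K + 1)) (j : Fin K), V n j ∈ s.F n) :
    t.eval s.d (fun i => sh m (v i)) (fun n j => shR m (V n j)) = sh m (t.eval s.d v V) := by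
  cases t with
  | var i => rfl
  | ext j =>
    simp only [Tm.eval]
    exact hs.eqv _ (hV ⟨0, Nat.succ_pos K⟩ j) m

theorem sat_sh {i : ℕ} {s : Stg} (hs : Good i s) {K : ℕ} (θ : AF K) (m : ℤ) (v : Fin K → Q)
    (V : RVal Q K) (hV : ∀ (n : Fin (K + 1)) (j : Fin K), V n j ∈ s.F n) :
    θ.sat s.d (fun i => sh m (v i)) (fun n j => shR m (V n j)) ↔ θ.sat s.d v V := by
  induction θ generalizing v with
  | eq t u =>
    simp only [AF.sat, eval_sh hs _ m v V hV]
    constructor
    · intro h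
      have := congrArg (sh (-m)) h
      rwa [sh_neg, sh_neg] at this
    · intro h; rw [h]
  | rel n j ts =>
    simp only [AF.sat, eval_sh hs _ m v V hV, shR, sh_neg]
  | neg φ ih => simp only [AF.sat, ih]
  | and φ ψ ih1 ih2 => simp only [AF.sat, ih1, ih2]
  | all i' φ ih =>
    simp only [AF.sat]
    have hup : ∀ (x : Q), Function.update (fun i => sh m (v i)) i' (sh m x)
        = fun i => sh m (Function.update v i' x i) := by
      intro x
      funext k
      by_cases hk : k = i'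
      · subst hk; simp
      · simp [Function.update_of_ne hk]
    constructor
    · intro h x
      have := h (sh m x)
      rw [hup] at this
      exact (ih _).1 this
    · intro h x
      have h1 := (ih (Function.update v i' (sh (-m) x))).2 (h (sh (-m) x))
      rw [← hup, sh_neg'] at h1
      exact h1

theorem upd_sh {K : ℕ} (V : RVal Q K) (n : Fin (K + 1)) (j : Fin K) (X : Rel Q n) (m : ℤ) :
    upd (fun n j => shR m (V n j)) n j (shR m X) = fun n' j' => shR m (upd V n j X n' j') := by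
  funext n' j'
  unfold upd
  by_cases hn : n' = n
  · subst hn
    by_cases hj : j' = j
    · subst hj; simp
    · simp [Function.update_of_ne hj]
  · simp [Function.update_of_ne hn]

theorem upd_mem {M : Type} {K : ℕ} {S : (n : ℕ) → Set (Rel M n)} {V : RVal M K}
    (hV : ∀ (n : Fin (K + 1)) (j : Fin K), V n j ∈ S n) (n : Fin (K + 1)) (j : Fin K)
    {X : Rel M n} (hX : X ∈ S n) :
    ∀ (n' : Fin (K + 1)) (j' : Fin K), upd V n j X n' j' ∈ S n' := by
  intro n' j'
  unfold upd
  by_cases hn : n' = n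
  · subst hn
    by_cases hj : j' = j
    · subst hj; simpa using hX
    · simpa [Function.update_of_ne hj] using hV n' j'
  · simpa [Function.update_of_ne hn] using hV n' j'

theorem exB_sh {i : ℕ} {s : Stg} (hs : Good i s) {K : ℕ} (θ : AF K)
    (bl : List (Fin (K + 1) × Fin K)) (m : ℤ) (v : Fin K → Q)
    (V : RVal Q K) (hV : ∀ (n : Fin (K + 1)) (j : Fin K), V n j ∈ s.F n) :
    exB s.F s.d θ bl (fun i => sh m (v i)) (fun n j => shR m (V n j)) ↔ exB s.F s.d θ bl v V := by
  induction bl generalizing V with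
  | nil => exact sat_sh hs θ m v V hV
  | cons p bl ih =>
    simp only [exB]
    constructor
    · rintro ⟨X, hX, h⟩
      refine ⟨shR (-m) X, hs.cl _ X hX _, ?_⟩
      rw [← ih _ (upd_mem hV p.1 p.2 (hs.cl _ X hX (-m)))]
      rw [← upd_sh, shR_shR]
      simpa using h
    · rintro ⟨X, hX, h⟩
      refine ⟨shR m X, hs.cl _ X hX _, ?_⟩
      rw [upd_sh]
      exact (ih _ (upd_mem hV p.1 p.2 hX)).2 h

theorem genf_sh {i : ℕ} {s : Stg} (hs : Good i s) {K n : ℕ} (θ : AF K)
    (bl : List (Fin (K + 1) × Fin K)) (x : Fin (n + 1) → Fin K) (m : ℤ) (v : Fin K → Q)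
    (V : RVal Q K) (hV : ∀ (n : Fin (K + 1)) (j : Fin K), V n j ∈ s.F n) :
    shR m (genf s θ bl x v V)
      = genf s θ bl x (fun i => sh m (v i)) (fun n j => shR m (V n j)) := by
  funext a
  apply propext
  simp only [shR, genf]
  rw [← exB_sh hs θ bl m _ V hV]
  have : (fun i => sh m (ov x (fun i => sh (-m) (a i)) v i)) = ov x a (fun i => sh m (v i)) := by
    funext k
    unfold ov
    rw [Function.apply_extend (sh m)]
    congr 1
    funext i
    simp [Function.comp, sh_neg']
  rw [this]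

end H323.BLV
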