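import Mathlib
import Pool.Agent.H323.BLV.Per

/-!
# The chain of stages
-/

namespace H323.BLV

/-- The next family: everything definable over the stage by a `Σ¹₁` formula. -/
def nextF (s : Stg) (n : ℕ) : Set (Rel Q n) :=
  {R | R ∈ s.F n ∨ R = (fun _ => False) ∨ R = Egen n ∨
    ∃ (K : ℕ) (θ : AF K) (bl : List (Fin (K + 1) × Fin K)) (x : Fin (n + 1) → Fin K)
      (v : Fin K → Q) (V : RVal Q K),
      (∀ (n : Fin (K + 1)) (j : Fin K), V n j ∈ s.F n) ∧ R = genf s θ bl x v V}

open Classical in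
noncomputable def enc (A : Set (Rel Q 0)) : Rel Q 0 → ℕ :=
  if h : ∃ f : Rel Q 0 → ℕ, Set.InjOn f A then Classical.choose h else fun _ => 0

theorem enc_inj {A : Set (Rel Q 0)} (hA : A.Countable) : Set.InjOn (enc A) A := by
  have h : ∃ f : Rel Q 0 → ℕ, Set.InjOn f A := Set.countable_iff_exists_injOn.1 hA
  unfold enc
  rw [dif_pos h]
  exact Classical.choose_spec h

open Classical in
noncomputable def newd (A : Set (Rel Q 0)) (i : ℕ) (X : Rel Q 0) : Q :=
  if h : ∃ j : ℕ, shR (2 ^ j) X = X then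
    { s := fun m => Nat.pair (i + 1) (enc A (shR m X))
      per := by
        obtain ⟨j, hj⟩ := h
        refine ⟨j, fun m => ?_⟩
        show Nat.pair (i + 1) (enc A (shR (m + 2 ^ j) X)) = Nat.pair (i + 1) (enc A (shR m X))
        rw [← shR_shR, hj] }
  else q0

theorem newd_s {A : Set (Rel Q 0)} {i : ℕ} {X : Rel Q 0} (h : ∃ j : ℕ, shR (2 ^ j) X = X)
    (m : ℤ) : (newd A i X).s m = Nat.pair (i + 1) (enc A (shR m X)) := by
  unfold newd
  rw [dif_pos h]

theorem newd_eqv {A : Set (Rel Q 0)} {i : ℕ} {X : Rel Q 0} (h : ∃ j : ℕ, shR (2 ^ j) X = X)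
    (m : ℤ) : newd A i (shR m X) = sh m (newd A i X) := by
  have h' : ∃ j : ℕ, shR (2 ^ j) (shR m X) = shR m X := by
    obtain ⟨j, hj⟩ := h
    refine ⟨j, ?_⟩
    rw [shR_shR, add_comm, ← shR_shR, hj]
  apply Q.ext
  funext x
  rw [newd_s h' x]
  show _ = (newd A i X).s (x + m)
  rw [newd_s h, shR_shR]

open Classical in
noncomputable def next (i : ℕ) (s : Stg) : Stg where
  F := nextF s
  d := fun X => if X ∈ s.F 0 then s.d X else newd (nextF s 0) i X

theorem nextF_cnt {i : ℕ} {s : Stg} (hs : Good i s) (n : ℕ) : (nextF s n).Countable := by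
  have : ∀ n, Countable (s.F n) := fun n => (hs.cnt n).to_subtype
  let gen : (Σ K : ℕ, AF K × List (Fin (K + 1) × Fin K) × (Fin (n + 1) → Fin K) × (Fin K → Q) ×
      ((m : Fin (K + 1)) → Fin K → s.F m)) → Rel Q n :=
    fun p => genf s p.2.1 p.2.2.1 p.2.2.2.1 p.2.2.2.2.1 (fun m j => (p.2.2.2.2.2 m j).1)
  have h1 : (Set.range gen).Countable := Set.countable_range gen
  have h2 : (s.F n ∪ ({fun _ => False} ∪ ({Egen n} ∪ Set.range gen))).Countable :=
    (hs.cnt n).union ((Set.countable_singleton _).union ((Set.countable_singleton _).union h1))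
  refine h2.mono ?_
  rintro R (hR | hR | hR | ⟨K, θ, bl, x, v, V, hV, rfl⟩)
  · exact Or.inl hR
  · exact Or.inr (Or.inl hR)
  · exact Or.inr (Or.inr (Or.inl hR))
  · exact Or.inr (Or.inr (Or.inr ⟨⟨K, θ, bl, x, v, fun m j => ⟨V m j, hV m j⟩⟩, rfl⟩))

theorem shR_false {n : ℕ} (m : ℤ) : shR m (fun _ => False : Rel Q n) = fun _ => False := rfl

theorem nextF_cl {i : ℕ} {s : Stg} (hs : Good i s) (n : ℕ) (X : Rel Q n) (hX : X ∈ nextF s n)
    (m : ℤ) : shR m X ∈ nextF s n := by
  rcases hX with hR | hR | hR | ⟨K, θ, bl, x, v, V, hV, rfl⟩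
  · exact Or.inl (hs.cl _ _ hR m)
  · exact Or.inr (Or.inl (by rw [hR]; rfl))
  · exact Or.inr (Or.inr (Or.inl (by rw [hR, shR_Egen])))
  · refine Or.inr (Or.inr (Or.inr ⟨K, θ, bl, x, fun i => sh m (v i), fun n j => shR m (V n j),
      fun n j => hs.cl _ _ (hV n j) m, ?_⟩))
    exact genf_sh hs θ bl x m v V hV

theorem nextF_fx {i : ℕ} {s : Stg} (hs : Good i s) (n : ℕ) (X : Rel Q n) (hX : X ∈ nextF s n) :
    ∃ j : ℕ, shR (2 ^ j) X = X := by
  rcases hX with hR | hR | hR | ⟨K, θ, bl, x, v, V, hV, rfl⟩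
  · exact hs.fx _ _ hR
  · exact ⟨0, by rw [hR]; rfl⟩
  · exact ⟨0, by rw [hR, shR_Egen]⟩
  · choose jv hjv using fun i => exists_fix (v i)
    choose jV hjV using fun (n : Fin (K + 1)) (j : Fin K) => hs.fx _ _ (hV n j)
    refine ⟨(∑ i, jv i) + ∑ n, ∑ j, jV n j, ?_⟩
    rw [genf_sh hs θ bl x _ v V hV]
    have h1 : (fun i => sh (2 ^ ((∑ i, jv i) + ∑ n, ∑ j, jV n j)) (v i)) = v := by
      funext k
      refine sh_fix_mono ?_ (hjv k)
      have := Finset.single_le_sum (f := jv) (fun i _ => Nat.zero_le _) (Finset.mem_univ k)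
      omega
    have h2 : (fun n j => shR (2 ^ ((∑ i, jv i) + ∑ n, ∑ j, jV n j)) (V n j)) = V := by
      funext n' j'
      refine shR_fix_mono ?_ (hjV n' j')
      have h3 := Finset.single_le_sum (f := fun j => jV n' j) (fun i _ => Nat.zero_le _)
        (Finset.mem_univ j')
      have h4 := Finset.single_le_sum (f := fun n => ∑ j, jV n j) (fun i _ => Nat.zero_le _)
        (Finset.mem_univ n')
      exact h3.trans (h4.trans (Nat.le_add_left _ _))
    rw [h1, h2]

theorem next_good {i : ℕ} {s : Stg} (hs : Good i s) : Good (i + 1) (next i s) := by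
  have hnot : ∀ X ∉ s.F 0, ∀ m, shR m X ∉ s.F 0 := by
    intro X hX m h
    apply hX
    have := hs.cl _ _ h (-m)
    rwa [shR_shR, neg_add_cancel, shR_zero] at this
  refine ⟨nextF_cnt hs, nextF_cl hs, nextF_fx hs, ?_, ?_, ?_⟩
  · intro X hX m
    by_cases h : X ∈ s.F 0
    · have h' := hs.cl _ _ h m
      simp only [next, if_pos h, if_pos h']
      exact hs.eqv _ h m
    · have h' := hnot X h m
      simp only [next, if_neg h, if_neg h']
      exact newd_eqv (nextF_fx hs _ _ hX) m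
  · intro X hX Y hY hXY
    have key : ∀ X ∈ s.F 0, ∀ Y ∈ nextF s 0, s.d X ≠ newd (nextF s 0) i Y := by
      intro X hX Y hY he
      have h1 := hs.lev X hX
      rw [he, newd_s (nextF_fx hs _ _ hY)] at h1
      simp at h1
    by_cases h : X ∈ s.F 0
    · by_cases h' : Y ∈ s.F 0
      · simp only [next, if_pos h, if_pos h'] at hXY
        exact hs.inj _ h _ h' hXY
      · simp only [next, if_pos h, if_neg h'] at hXY
        exact absurd hXY (key X h Y hY)
    · by_cases h' : Y ∈ s.F 0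
      · simp only [next, if_neg h, if_pos h'] at hXY
        exact absurd hXY.symm (key Y h' X hX)
      · simp only [next, if_neg h, if_neg h'] at hXY
        have h1 := congrArg (fun q => Q.s q 0) hXY
        simp only [newd_s (nextF_fx hs _ _ hX), newd_s (nextF_fx hs _ _ hY), shR_zero] at h1
        have h2 := (Nat.pair_eq_pair.1 h1).2
        exact enc_inj (nextF_cnt hs 0) hX hY h2
  · intro X hX
    by_cases h : X ∈ s.F 0
    · simp only [next, if_pos h]
      exact (hs.lev X h).trans (Nat.le_succ i)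
    · simp only [next, if_neg h]
      rw [newd_s (nextF_fx hs _ _ hX)]
      simp

noncomputable def stage : ℕ → Stg
  | 0 => ⟨fun _ => ∅, fun _ => q0⟩
  | (i + 1) => next i (stage i)

theorem stage_good (i : ℕ) : Good i (stage i) := by
  induction i with
  | zero =>
    refine ⟨fun n => Set.countable_empty, ?_, ?_, ?_, ?_, ?_⟩
    · intro n X hX; exact absurd hX (by simp [stage])
    · intro n X hX; exact absurd hX (by simp [stage])
    · intro X hX; exact absurd hX (by simp [stage])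
    · intro X hX; exact absurd hX (by simp [stage])
    · intro X hX; exact absurd hX (by simp [stage])
  | succ i ih => exact next_good ih

/-- The family of stage `i`. -/
noncomputable def F (i n : ℕ) : Set (Rel Q n) := (stage i).F n

theorem F_mono {i i' : ℕ} (h : i ≤ i') (n : ℕ) : F i n ⊆ F i' n := by
  induction i', h using Nat.le_induction with
  | base => exact subset_rfl
  | succ k _ ih => exact fun R hR => Or.inl (ih hR)

theorem d_mono {i i' : ℕ} (h : i ≤ i') {X : Rel Q 0} (hX : X ∈ F i 0) :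
    (stage i').d X = (stage i).d X := by
  induction i', h using Nat.le_induction with
  | base => rfl
  | succ k hk ih =>
    rw [← ih]
    have : X ∈ (stage k).F 0 := F_mono hk 0 hX
    simp only [stage, next, if_pos this]

open Classical in
noncomputable def dom (X : Rel Q 0) : Q :=
  if h : ∃ i, X ∈ F i 0 then (stage (Nat.find h)).d X else q0

theorem dom_eq {i : ℕ} {X : Rel Q 0} (hX : X ∈ F i 0) : dom X = (stage i).d X := by
  classical
  have h : ∃ i, X ∈ F i 0 := ⟨i, hX⟩
  unfold dom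
  rw [dif_pos h]
  exact (d_mono (Nat.find_min' h hX) (Nat.find_spec h)).symm

theorem F_false (i n : ℕ) : (fun _ => False) ∈ F (i + 1) n := Or.inr (Or.inl rfl)

theorem F_E (i n : ℕ) : Egen n ∈ F (i + 1) n := Or.inr (Or.inr (Or.inl rfl))

theorem F_fx {i n : ℕ} {X : Rel Q n} (hX : X ∈ F i n) : ∃ j : ℕ, shR (2 ^ j) X = X :=
  (stage_good i).fx _ _ hX

theorem dom_inj {i i' : ℕ} {X Y : Rel Q 0} (hX : X ∈ F i 0) (hY : Y ∈ F i' 0)
    (h : dom X = dom Y) : X = Y := by
  have h1 := F_mono (le_max_left i i') 0 hX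
  have h2 := F_mono (le_max_right i i') 0 hY
  rw [dom_eq h1, dom_eq h2] at h
  exact (stage_good _).inj _ h1 _ h2 h

theorem eval_congr {M : Type} {K : ℕ} {d d' : Rel M 0 → M} (v : Fin K → M) (V : RVal M K)
    (h : ∀ j, d (V ⟨0, Nat.succ_pos K⟩ j) = d' (V ⟨0, Nat.succ_pos K⟩ j)) (t : Tm K) :
    t.eval d v V = t.eval d' v V := by
  cases t with
  | var i => rfl
  | ext j => exact h j

theorem sat_congr {M : Type} {K : ℕ} {d d' : Rel M 0 → M} (V : RVal M K)
    (h : ∀ j, d (V ⟨0, Nat.succ_pos K⟩ j) = d' (V ⟨0, Nat.succ_pos K⟩ j)) (θ : AF K)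
    (v : Fin K → M) :
    θ.sat d v V ↔ θ.sat d' v V := by
  induction θ generalizing v with
  | eq t u => simp only [AF.sat, eval_congr v V h]
  | rel n j ts => simp only [AF.sat, eval_congr v V h]
  | neg φ ih => simp only [AF.sat, ih]
  | and φ ψ ih1 ih2 => simp only [AF.sat, ih1, ih2]
  | all i φ ih => simp only [AF.sat, ih]

theorem exB_congr {M : Type} {K : ℕ} {S : (n : ℕ) → Set (Rel M n)} {d d' : Rel M 0 → M}
    (h : ∀ X ∈ S 0, d X = d' X) (θ : AF K) (bl : List (Fin (K + 1) × Fin K))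
    (v : Fin K → M) (V : RVal M K) (hV : ∀ (n : Fin (K + 1)) (j : Fin K), V n j ∈ S n) :
    exB S d θ bl v V ↔ exB S d' θ bl v V := by
  induction bl generalizing V with
  | nil => exact sat_congr V (fun j => h _ (hV ⟨0, Nat.succ_pos K⟩ j)) θ v
  | cons p bl ih =>
    simp only [exB]
    constructor
    · rintro ⟨X, hX, h1⟩
      exact ⟨X, hX, (ih _ (upd_mem hV p.1 p.2 hX)).1 h1⟩
    · rintro ⟨X, hX, h1⟩
      exact ⟨X, hX, (ih _ (upd_mem hV p.1 p.2 hX)).2 h1⟩

theorem F_gen {i K n : ℕ} (θ : AF K) (bl : List (Fin (K + 1) × Fin K)) (x : Fin (n + 1) → Fin K)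
    (v : Fin K → Q) (V : RVal Q K) (hV : ∀ (n : Fin (K + 1)) (j : Fin K), V n j ∈ F i n) :
    (fun a => exB (F i) dom θ bl (ov x a v) V) ∈ F (i + 1) n := by
  refine Or.inr (Or.inr (Or.inr ⟨K, θ, bl, x, v, V, hV, ?_⟩))
  funext a
  apply propext
  exact exB_congr (S := F i) (fun X hX => dom_eq hX) θ bl _ V hV

end H323.BLV
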