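import Mathlib
import Pool.Agent.H323.BLV.Stage

/-!
# The ultrapower
-/

namespace H323.BLV

open Filter

noncomputable abbrev U : Ultrafilter ℕ := hyperfilter ℕ

def NSetoid : Setoid (ℕ → Q) where
  r f g := ∀ᶠ k in (U : Filter ℕ), f k = g k
  iseqv := ⟨fun _ => Eventually.of_forall fun _ => rfl, fun h => h.mono fun _ h => h.symm,
    fun h1 h2 => by filter_upwards [h1, h2] with k a b using a.trans b⟩

def N : Type := Quotient NSetoid

def mkN (f : ℕ → Q) : N := Quotient.mk NSetoid f

noncomputable def rp (a : N) : ℕ → Q := Quotient.out a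

theorem mkN_rp (a : N) : mkN (rp a) = a := Quotient.out_eq a

theorem mkN_eq {f g : ℕ → Q} : mkN f = mkN g ↔ ∀ᶠ k in (U : Filter ℕ), f k = g k :=
  ⟨fun h => Quotient.exact h, fun h => Quotient.sound h⟩

theorem rp_mkN (f : ℕ → Q) : ∀ᶠ k in (U : Filter ℕ), rp (mkN f) k = f k := mkN_eq.1 (mkN_rp _)

/-- Internal relations. -/
def intern {n : ℕ} (R : ℕ → Rel Q n) : Rel N n :=
  fun a => ∀ᶠ k in (U : Filter ℕ), R k (fun i => rp (a i) k)

theorem intern_mk {n : ℕ} (R : ℕ → Rel Q n) (a : ℕ → Fin (n + 1) → Q) :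
    intern R (fun i => mkN (fun k => a k i)) ↔ ∀ᶠ k in (U : Filter ℕ), R k (a k) := by
  have h : ∀ᶠ k in (U : Filter ℕ), ∀ i, rp (mkN fun k => a k i) k = a k i :=
    eventually_all.2 fun i => rp_mkN _
  unfold intern
  constructor
  · intro h1
    filter_upwards [h, h1] with k h2 h3
    have e : (fun i => rp (mkN fun k => a k i) k) = a k := funext h2
    rwa [e] at h3
  · intro h1
    filter_upwards [h, h1] with k h2 h3
    have e : (fun i => rp (mkN fun k => a k i) k) = a k := funext h2
    rwa [e]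

theorem intern_eq {n : ℕ} {R R' : ℕ → Rel Q n} (h : ∀ᶠ k in (U : Filter ℕ), R k = R' k) :
    intern R = intern R' := by
  funext a
  apply propext
  unfold intern
  constructor
  · intro h1
    filter_upwards [h, h1] with k h2 h3
    rwa [← h2]
  · intro h1
    filter_upwards [h, h1] with k h2 h3
    rwa [h2]

theorem eq_of_intern {n : ℕ} {R R' : ℕ → Rel Q n} (h : intern R = intern R') :
    ∀ᶠ k in (U : Filter ℕ), R k = R' k := by
  by_contra hc
  rw [← Ultrafilter.eventually_not] at hc
  have h1 : ∀ k, ∃ a : Fin (n + 1) → Q, R k ≠ R' k → ¬ (R k a ↔ R' k a) := by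
    intro k
    by_cases hk : R k = R' k
    · exact ⟨fun _ => q0, fun h => absurd hk h⟩
    · by_contra hcon
      apply hk
      funext a
      apply propext
      by_contra h2
      exact hcon ⟨a, fun _ => h2⟩
  choose a ha using h1
  have h2 : intern R (fun i => mkN fun k => a k i) ↔ intern R' (fun i => mkN fun k => a k i) := by
    rw [h]
  rw [intern_mk, intern_mk] at h2
  have h3 : ∀ᶠ k in (U : Filter ℕ), (R k (a k) ↔ R' k (a k)) := by
    by_cases hR : ∀ᶠ k in (U : Filter ℕ), R k (a k)
    · filter_upwards [hR, h2.1 hR] with k h4 h5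
      exact ⟨fun _ => h5, fun _ => h4⟩
    · have hR' : ¬ ∀ᶠ k in (U : Filter ℕ), R' k (a k) := fun h => hR (h2.2 h)
      rw [← Ultrafilter.eventually_not] at hR hR'
      filter_upwards [hR, hR'] with k h4 h5
      exact ⟨fun h => absurd h h4, fun h => absurd h h5⟩
  have h4 : ∀ᶠ _k in (U : Filter ℕ), False := by
    filter_upwards [hc, h3] with k h5 h6
    exact ha k h5 h6
  exact (Filter.eventually_const.1 h4)

/-- The relations of the structure: internal relations of bounded stage. -/
def SN (n : ℕ) : Set (Rel N n) :=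
  {X | ∃ (i : ℕ) (R : ℕ → Rel Q n), (∀ k, R k ∈ F i n) ∧ X = intern R}

open Classical in
noncomputable def extN (X : Rel N 0) : N :=
  if h : ∃ R : ℕ → Rel Q 0, X = intern R then mkN (fun k => dom (Classical.choose h k))
  else mkN (fun _ => q0)

theorem extN_intern (R : ℕ → Rel Q 0) : extN (intern R) = mkN (fun k => dom (R k)) := by
  have h : ∃ R' : ℕ → Rel Q 0, intern R = intern R' := ⟨R, rfl⟩
  unfold extN
  rw [dif_pos h, mkN_eq]
  have h1 := eq_of_intern (Classical.choose_spec h)
  filter_upwards [h1] with k hk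
  rw [← hk]

/-- The structure. -/
noncomputable def NN : BLStr := ⟨N, SN, extN⟩

/-- Assignments given by sequences. -/
def mkv {K : ℕ} (v : ℕ → Fin K → Q) : Fin K → N := fun i => mkN fun k => v k i

def mkV {K : ℕ} (V : ℕ → RVal Q K) : RVal N K := fun n j => intern fun k => V k n j

theorem eval_los {K : ℕ} (t : Tm K) (v : ℕ → Fin K → Q) (V : ℕ → RVal Q K) :
    t.eval extN (mkv v) (mkV V) = mkN (fun k => t.eval dom (v k) (V k)) := by
  cases t with
  | var i => rfl
  | ext j => exact extN_intern _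

theorem sat_los {K : ℕ} (θ : AF K) (v : ℕ → Fin K → Q) (V : ℕ → RVal Q K) :
    θ.sat extN (mkv v) (mkV V) ↔ ∀ᶠ k in (U : Filter ℕ), θ.sat dom (v k) (V k) := by
  induction θ generalizing v with
  | eq t u =>
    simp only [AF.sat, eval_los]
    exact mkN_eq
  | rel n j ts =>
    simp only [AF.sat, eval_los]
    exact intern_mk _ _
  | neg φ ih =>
    simp only [AF.sat, ih]
    exact Ultrafilter.eventually_not.symm
  | and φ ψ ih1 ih2 =>
    simp only [AF.sat, ih1, ih2]
    exact eventually_and.symm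
  | all i φ ih =>
    simp only [AF.sat]
    have hup : ∀ f : ℕ → Q, Function.update (mkv v) i (mkN f)
        = mkv (fun k => Function.update (v k) i (f k)) := by
      intro f
      funext i'
      by_cases h : i' = i
      · subst h; simp [mkv]
      · simp [mkv, Function.update_of_ne h]
    constructor
    · intro h
      by_contra hc
      rw [← Ultrafilter.eventually_not] at hc
      have h1 : ∀ k, ∃ x : Q, (¬ ∀ x, φ.sat dom (Function.update (v k) i x) (V k)) →
          ¬ φ.sat dom (Function.update (v k) i x) (V k) := by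
        intro k
        by_cases hk : ∀ x, φ.sat dom (Function.update (v k) i x) (V k)
        · exact ⟨q0, fun h => absurd hk h⟩
        · obtain ⟨x, hx⟩ := not_forall.1 hk
          exact ⟨x, fun _ => hx⟩
      choose f hf using h1
      have h2 := h (mkN f)
      rw [hup, ih] at h2
      have h4 : ∀ᶠ _k in (U : Filter ℕ), False := by
        filter_upwards [hc, h2] with k h5 h6
        exact hf k h5 h6
      exact (Filter.eventually_const.1 h4)
    · intro h x
      rw [← mkN_rp x, hup, ih]
      filter_upwards [h] with k hk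
      exact hk _

theorem exB_mono {M : Type} {S S' : (n : ℕ) → Set (Rel M n)} (h : ∀ n, S n ⊆ S' n)
    {d : Rel M 0 → M} {K : ℕ} (θ : AF K) (bl : List (Fin (K + 1) × Fin K)) (v : Fin K → M)
    (V : RVal M K) (h1 : exB S d θ bl v V) : exB S' d θ bl v V := by
  induction bl generalizing V with
  | nil => exact h1
  | cons p bl ih =>
    obtain ⟨X, hX, h2⟩ := h1
    exact ⟨X, h _ hX, ih _ h2⟩

theorem allB_iff {M : Type} {S : (n : ℕ) → Set (Rel M n)}
    {d : Rel M 0 → M} {K : ℕ} (θ : AF K) (bl : List (Fin (K + 1) × Fin K)) (v : Fin K → M)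
    (V : RVal M K) : allB S d θ bl v V ↔ ¬ exB S d (.neg θ) bl v V := by
  induction bl generalizing V with
  | nil => simp only [allB, exB, AF.sat, not_not]
  | cons p bl ih =>
    simp only [allB, exB, ih]
    push Not
    rfl

theorem upd_mkV {K : ℕ} (V : ℕ → RVal Q K) (n : Fin (K + 1)) (j : Fin K) (R : ℕ → Rel Q n) :
    upd (mkV V) n j (intern R) = mkV (fun k => upd (V k) n j (R k)) := by
  funext n' j'
  unfold upd mkV
  by_cases hn : n' = n
  · subst hn
    by_cases hj : j' = j
    · subst hj; simp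
    · simp [Function.update_of_ne hj]
  · simp [Function.update_of_ne hn]

theorem exB_los {K : ℕ} (θ : AF K) (bl : List (Fin (K + 1) × Fin K)) (v : ℕ → Fin K → Q)
    (V : ℕ → RVal Q K) :
    exB SN extN θ bl (mkv v) (mkV V) ↔
      ∃ i, ∀ᶠ k in (U : Filter ℕ), exB (F i) dom θ bl (v k) (V k) := by
  induction bl generalizing V with
  | nil =>
    simp only [exB, sat_los]
    exact ⟨fun h => ⟨0, h⟩, fun ⟨_, h⟩ => h⟩
  | cons p bl ih =>
    constructor
    · rintro ⟨X, ⟨i1, R, hR, rfl⟩, h⟩
      rw [upd_mkV, ih] at h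
      obtain ⟨i, hi⟩ := h
      refine ⟨max i i1, ?_⟩
      filter_upwards [hi] with k hk
      exact ⟨R k, F_mono (le_max_right _ _) _ (hR k),
        exB_mono (fun n => F_mono (le_max_left _ _) n) θ bl _ _ hk⟩
    · rintro ⟨i, hi⟩
      have h1 : ∀ k, ∃ X ∈ F (i + 1) (p.1 : ℕ), exB (F i) dom θ (p :: bl) (v k) (V k) →
          exB (F i) dom θ bl (v k) (upd (V k) p.1 p.2 X) := by
        intro k
        by_cases hk : exB (F i) dom θ (p :: bl) (v k) (V k)
        · obtain ⟨X, hX, h2⟩ := hk
          exact ⟨X, F_mono (Nat.le_succ i) _ hX, fun _ => h2⟩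
        · exact ⟨fun _ => False, F_false i _, fun h => absurd h hk⟩
      choose R hR hR2 using h1
      refine ⟨intern R, ⟨i + 1, R, hR, rfl⟩, ?_⟩
      rw [upd_mkV, ih]
      refine ⟨i, ?_⟩
      filter_upwards [hi] with k hk
      exact hR2 k hk

theorem repV {K : ℕ} (V : RVal N K) (hV : ∀ (n : Fin (K + 1)) (j : Fin K), V n j ∈ SN n) :
    ∃ (i : ℕ) (W : ℕ → RVal Q K), (∀ k (n : Fin (K + 1)) (j : Fin K), W k n j ∈ F i n) ∧
      V = mkV W := by
  choose i R hR he using hV
  refine ⟨∑ n, ∑ j, i n j, fun k n j => R n j k, ?_, ?_⟩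
  · intro k n j
    refine F_mono ?_ _ (hR n j k)
    have h3 := Finset.single_le_sum (f := fun j => i n j) (fun i _ => Nat.zero_le _)
      (Finset.mem_univ j)
    have h4 := Finset.single_le_sum (f := fun n => ∑ j, i n j) (fun i _ => Nat.zero_le _)
      (Finset.mem_univ n)
    exact h3.trans h4
  · funext n j
    exact he n j

theorem ov_rep {K n : ℕ} (x : Fin (n + 1) → Fin K) (a : Fin (n + 1) → N) (v : Fin K → N) :
    ov x a v = mkv (fun k => ov x (fun j => rp (a j) k) (fun i => rp (v i) k)) := by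
  funext i
  unfold mkv
  have h : (fun k => ov x (fun j => rp (a j) k) (fun i => rp (v i) k) i)
      = rp (ov x a v i) := by
    funext k
    unfold ov
    exact (Function.apply_extend (fun q : N => rp q k) x v i).symm
  rw [h, mkN_rp]

theorem lawV : BasicLawV NN := by
  rintro X ⟨i, R, hR, rfl⟩ Y ⟨i', R', hR', rfl⟩
  constructor
  · intro h
    have h1 : extN (intern R) = extN (intern R') := h
    rw [extN_intern, extN_intern, mkN_eq] at h1
    have h2 : intern R = intern R' := by
      apply intern_eq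
      filter_upwards [h1] with k hk
      exact dom_inj (hR k) (hR' k) hk
    intro a
    rw [h2]
  · intro h
    have : intern R = intern R' := funext fun a => propext (h a)
    rw [this]

theorem arith : ArithComp NN := by
  intro K θ v V hV n x _
  obtain ⟨i, W, hW, rfl⟩ := repV V hV
  refine ⟨intern (fun k => fun a => exB (F i) dom θ [] (ov x a (fun i => rp (v i) k)) (W k)),
    ⟨i + 1, _, fun k => F_gen θ [] x _ (W k) (hW k), rfl⟩, ?_⟩
  intro a
  show intern _ a ↔ θ.sat extN (ov x a v) (mkV W)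
  rw [ov_rep, sat_los]
  rfl

theorem delta : Delta11Comp NN := by
  intro K θ ψ bl bl' v V hV n x _ hyp
  obtain ⟨i, W, hW, rfl⟩ := repV V hV
  set A : ℕ → ℕ → Rel Q n := fun i k a =>
    exB (F i) dom θ bl (ov x a (fun i => rp (v i) k)) (W k) with hA
  set B : ℕ → ℕ → Rel Q n := fun i k a =>
    exB (F i) dom (.neg ψ) bl' (ov x a (fun i => rp (v i) k)) (W k) with hB
  have Amono : ∀ {i i' k a}, i ≤ i' → A i k a → A i' k a := fun h h1 =>
    exB_mono (fun n => F_mono h n) _ _ _ _ h1
  have Bmono : ∀ {i i' k a}, i ≤ i' → B i k a → B i' k a := fun h h1 =>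
    exB_mono (fun n => F_mono h n) _ _ _ _ h1
  have hφ : ∀ a : Fin (n + 1) → N, exB SN extN θ bl (ov x a v) (mkV W) ↔
      ∃ i, ∀ᶠ k in (U : Filter ℕ), A i k (fun j => rp (a j) k) := by
    intro a
    rw [ov_rep, exB_los]
  have hψ : ∀ a : Fin (n + 1) → N, allB SN extN ψ bl' (ov x a v) (mkV W) ↔
      ¬ ∃ i, ∀ᶠ k in (U : Filter ℕ), B i k (fun j => rp (a j) k) := by
    intro a
    rw [ov_rep, allB_iff, exB_los]
  have hyp' : ∀ a : Fin (n + 1) → N,
      (∃ i, ∀ᶠ k in (U : Filter ℕ), A i k (fun j => rp (a j) k)) ↔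
      ¬ ∃ i, ∀ᶠ k in (U : Filter ℕ), B i k (fun j => rp (a j) k) := by
    intro a
    rw [← hφ, ← hψ]
    exact hyp a
  have claim : ∃ i, ∀ᶠ k in (U : Filter ℕ), ∀ a, A i k a ∨ B i k a := by
    classical
    by_contra hc
    push Not at hc
    have hc' : ∀ i, ∀ᶠ k in (U : Filter ℕ), ∃ a, ¬ A i k a ∧ ¬ B i k a := by
      intro i
      have h1 : ¬ ∀ᶠ k in (U : Filter ℕ), ∀ a, A i k a ∨ B i k a := by
        intro h2
        exact absurd h2 (by simpa using hc i)
      rw [← Ultrafilter.eventually_not] at h1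
      filter_upwards [h1] with k hk
      push Not at hk
      exact hk
    let P : ℕ → ℕ → Prop := fun k i => ∃ a, ¬ A i k a ∧ ¬ B i k a
    let g : ℕ → ℕ := fun k => Nat.findGreatest (P k) k
    have h1 : ∀ k, ∃ a : Fin (n + 1) → Q, P k (g k) → ¬ A (g k) k a ∧ ¬ B (g k) k a := by
      intro k
      by_cases hk : P k (g k)
      · obtain ⟨a, ha⟩ := hk
        exact ⟨a, fun _ => ha⟩
      · exact ⟨fun _ => q0, fun h => absurd h hk⟩
    choose a ha using h1
    have h2 : ∀ i, ∀ᶠ k in (U : Filter ℕ), ¬ A i k (a k) ∧ ¬ B i k (a k) := by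
      intro i
      have h3 : ∀ᶠ k in (U : Filter ℕ), i ≤ k :=
        Nat.hyperfilter_le_atTop (eventually_ge_atTop i)
      filter_upwards [hc' i, h3] with k h4 h5
      have h6 : P k (g k) := Nat.findGreatest_spec (P := P k) h5 h4
      have h7 : i ≤ g k := Nat.le_findGreatest h5 h4
      obtain ⟨h8, h9⟩ := ha k h6
      exact ⟨fun h => h8 (Amono h7 h), fun h => h9 (Bmono h7 h)⟩
    have h3 := hyp' (fun j => mkN fun k => a k j)
    have h4 : ∀ᶠ k in (U : Filter ℕ), (fun j => rp (mkN fun k => a k j) k) = a k := by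
      have : ∀ᶠ k in (U : Filter ℕ), ∀ j, rp (mkN fun k => a k j) k = a k j :=
        eventually_all.2 fun i => rp_mkN _
      filter_upwards [this] with k hk
      exact funext hk
    have h5 : ¬ ∃ i, ∀ᶠ k in (U : Filter ℕ), A i k (fun j => rp (mkN fun k => a k j) k) := by
      rintro ⟨i, hi⟩
      have : ∀ᶠ _k in (U : Filter ℕ), False := by
        filter_upwards [hi, h2 i, h4] with k h6 h7 h8
        rw [h8] at h6
        exact h7.1 h6
      exact Filter.eventually_const.1 this
    have h6 : ¬ ∃ i, ∀ᶠ k in (U : Filter ℕ), B i k (fun j => rp (mkN fun k => a k j) k) := by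
      rintro ⟨i, hi⟩
      have : ∀ᶠ _k in (U : Filter ℕ), False := by
        filter_upwards [hi, h2 i, h4] with k h6 h7 h8
        rw [h8] at h6
        exact h7.2 h6
      exact Filter.eventually_const.1 this
    exact h5 (h3.2 h6)
  obtain ⟨i0, hi0⟩ := claim
  refine ⟨intern (fun k => A (max i i0) k), ⟨max i i0 + 1, _, fun k => F_gen θ bl x _ (W k)
    (fun n j => F_mono (le_max_left _ _) _ (hW k n j)), rfl⟩, ?_⟩
  intro a
  show intern _ a ↔ exB SN extN θ bl (ov x a v) (mkV W)
  rw [hφ]
  constructor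
  · intro h
    exact ⟨_, h⟩
  · rintro ⟨i', hi'⟩
    by_contra hc
    unfold intern at hc
    rw [← Ultrafilter.eventually_not] at hc
    have h1 : ∀ᶠ k in (U : Filter ℕ), B (max i i0) k (fun j => rp (a j) k) := by
      filter_upwards [hc, hi0] with k h2 h3
      rcases h3 (fun j => rp (a j) k) with h4 | h4
      · exact absurd (Amono (le_max_right _ _) h4) h2
      · exact Bmono (le_max_right _ _) h4
    exact (hyp' a).1 ⟨i', hi'⟩ ⟨_, h1⟩

end H323.BLV
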