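import Mathlib
import Pool.Agent.H323.BLV.Ultra

/-!
# Failure of choice
-/

namespace H323.BLV

open Filter

/-- Pairs of variables. -/
def two {K : ℕ} (a b : Fin K) : Fin (1 + 1) → Tm K := fun i => if i = 0 then .var a else .var b

/-- Pairs. -/
def pr {M : Type} (s t : M) : Fin (1 + 1) → M := fun i => if i = 0 then s else t

theorem eval_two {M : Type} {K : ℕ} (d : Rel M 0 → M) (v : Fin K → M) (V : RVal M K)
    (a b : Fin K) : (fun i => (two a b i).eval d v V) = pr (v a) (v b) := by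
  funext i
  unfold two pr
  by_cases h : i = 0
  · simp only [h, if_true, Tm.eval]
  · simp only [h, if_false, Tm.eval]

/-- `∃ b, P b ∧ E n b ∧ ∀ b', P b' → b' = b`; `n, b, b'` are the object variables `0, 1, 2`,
`P` is the relation variable `(0, 0)` and `E` the relation variable `(1, 0)`. -/
def thP : AF 3 :=
  .neg (.all 1 (.neg (.and (.rel 0 0 (fun _ => .var 1))
    (.and (.rel 1 0 (two 0 1))
      (.all 2 (.neg (.and (.rel 0 0 (fun _ => .var 2)) (.neg (.eq (.var 2) (.var 1))))))))))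

/-- `∀ n ∃ b, R n b ∧ E n b ∧ ∀ b', R n b' → b' = b` with `R` the relation variable `(1, 1)`. -/
def thR : AF 3 :=
  .all 0 (.neg (.all 1 (.neg (.and (.rel 1 1 (two 0 1))
    (.and (.rel 1 0 (two 0 1))
      (.all 2 (.neg (.and (.rel 1 1 (two 0 2)) (.neg (.eq (.var 2) (.var 1)))))))))))

theorem thP_sat {M : Type} (d : Rel M 0 → M) (v : Fin 3 → M) (V : RVal M 3) :
    thP.sat d v V ↔ ∃ b, V 0 0 (fun _ => b) ∧ V 1 0 (pr (v 0) b) ∧
      ∀ b', V 0 0 (fun _ => b') → b' = b := by
  have e1 : ∀ (w : Fin 3 → M), V 1 0 (fun i => (two 0 1 i).eval d w V) = V 1 0 (pr (w 0) (w 1)) := by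
    intro w
    exact congrArg (V 1 0) (eval_two d w V 0 1)
  simp only [thP, AF.sat, e1]
  simp only [Tm.eval, not_forall, not_not, not_and]
  simp
  constructor <;> (rintro ⟨x, h1, h2, h3⟩; exact ⟨x, h2, h1, h3⟩)

theorem thR_sat {M : Type} (d : Rel M 0 → M) (v : Fin 3 → M) (V : RVal M 3) :
    thR.sat d v V ↔ ∀ n, ∃ b, V 1 1 (pr n b) ∧ V 1 0 (pr n b) ∧
      ∀ b', V 1 1 (pr n b') → b' = b := by
  have e1 : ∀ (w : Fin 3 → M) (j c : Fin 3), V 1 j (fun i => (two 0 c i).eval d w V)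
      = V 1 j (pr (w 0) (w c)) := by
    intro w j c
    exact congrArg (V 1 j) (eval_two d w V 0 c)
  simp only [thR, AF.sat, e1]
  simp only [Tm.eval, not_forall, not_not, not_and]
  simp
  constructor <;> (intro h n; obtain ⟨x, h1, h2, h3⟩ := h n; exact ⟨x, h2, h1, h3⟩)

/-- The element with minimal period `2^j`. -/
def el (j : ℕ) : Q where
  s := fun x => if (2 : ℤ) ^ j ∣ x then 1 else 0
  per := ⟨j, fun m => by simp⟩

theorem el_fix (j : ℕ) : sh (2 ^ j) (el j) = el j := by
  apply Q.ext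
  funext x
  show (if (2 : ℤ) ^ j ∣ x + 2 ^ j then 1 else 0) = (if (2 : ℤ) ^ j ∣ x then 1 else 0)
  simp

theorem dvd_of_fix {j : ℕ} {m : ℤ} (h : sh m (el j) = el j) : (2 : ℤ) ^ j ∣ m := by
  have h1 := congrArg (fun q => Q.s q 0) h
  have h2 : (if (2 : ℤ) ^ j ∣ 0 + m then 1 else 0) = (if (2 : ℤ) ^ j ∣ 0 then 1 else 0) := h1
  by_contra hc
  simp [hc] at h2

theorem exists_E (s : Q) : ∃ t : Q, Egen 1 (pr s t) := by
  obtain ⟨j, hj⟩ := exists_fix s
  refine ⟨el (j + 1), 2 ^ j, hj, ?_⟩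
  intro h
  have h1 := dvd_of_fix (j := j + 1) h
  have h2 := Int.le_of_dvd (by positivity) h1
  have h3 : (2 : ℤ) ^ (j + 1) = 2 * 2 ^ j := by ring
  have h4 : (0 : ℤ) < 2 ^ j := by positivity
  linarith

theorem no_section {i : ℕ} {R : Rel Q 1} (hR : R ∈ F i 1)
    (h : ∀ n, ∃ b, R (pr n b) ∧ Egen 1 (pr n b) ∧ ∀ b', R (pr n b') → b' = b) : False := by
  obtain ⟨j, hj⟩ := F_fx hR
  obtain ⟨t, h1, ⟨m, hm1, hm2⟩, h3⟩ := h (el j)
  have hm1' : sh m (el j) = el j := hm1
  have hm2' : sh m t ≠ t := hm2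
  obtain ⟨c, rfl⟩ := dvd_of_fix hm1'
  have h4 : R (pr (el j) (sh (2 ^ j) t)) := by
    rw [← hj]
    have e : (fun i => sh (-(2 ^ j)) (pr (el j) (sh (2 ^ j) t) i)) = pr (el j) t := by
      funext i
      unfold pr
      by_cases h : i = 0
      · simp only [h, if_true]
        have := sh_neg (2 ^ j) (el j)
        rwa [el_fix] at this
      · simp only [h, if_false]
        exact sh_neg _ _
    show R (fun i => sh (-(2 ^ j)) (pr (el j) (sh (2 ^ j) t) i))
    rw [e]
    exact h1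
  have h5 : sh (2 ^ j) t = t := h3 _ h4
  apply hm2'
  have hper : Function.Periodic t.s ((2 : ℤ) ^ j) := fun x => congrFun (congrArg Q.s h5) x
  apply Q.ext
  funext x
  have h6 := hper.int_mul c x
  show t.s (x + 2 ^ j * c) = t.s x
  rw [← h6]
  congr 1
  simp [mul_comm]

theorem single_mem (t : Q) : (fun a : Fin (0 + 1) → Q => a 0 = t) ∈ F 2 0 := by
  have h := F_gen (i := 1) (K := 2) (n := 0) (.eq (.var 0) (.var 1)) [] (fun _ => 0)
    (fun _ => t) (fun _ _ _ => False) (fun n _ => F_false 0 n)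
  have e : (fun a : Fin (0 + 1) → Q => a 0 = t) = fun a => exB (F 1) dom
      (.eq (.var 0) (.var 1) : AF 2) [] (ov (fun _ => 0) a (fun _ => t))
      (fun _ _ _ => False) := by
    funext a
    have h0 : ov (fun _ : Fin (0 + 1) => (0 : Fin 2)) a (fun _ => t) 0 = a 0 := by
      unfold ov
      have hi : Function.Injective (fun _ : Fin (0 + 1) => (0 : Fin 2)) := fun x y _ =>
        Subsingleton.elim (α := Fin 1) x y
      exact hi.extend_apply a _ 0
    have h1 : ov (fun _ : Fin (0 + 1) => (0 : Fin 2)) a (fun _ => t) 1 = t := by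
      unfold ov
      rw [Function.extend_apply']
      rintro ⟨x, hx⟩
      exact absurd hx (by decide)
    simp only [exB, AF.sat, Tm.eval, h0, h1]
  rw [e]
  exact h

theorem not_choice_aux (hch : ∀ (K : ℕ) (θ : AF K) (bl : List (Fin (K + 1) × Fin K))
    (v : Fin K → N) (V : RVal N K), (∀ (n : Fin (K + 1)) (j : Fin K), V n j ∈ SN n) →
    ∀ (p : ℕ) (x : Fin (p + 1) → Fin K), Function.Injective x →
    ∀ (q : Fin (K + 1)) (j : Fin K),
      (∀ a, ∃ P ∈ SN q, exB SN extN θ bl (ov x a v) (upd V q j P)) →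
      ∃ R ∈ SN (p + 1 + q), ∀ (a : Fin (p + 1) → N), ∀ P ∈ SN q,
        (∀ m : Fin ((q : ℕ) + 1) → N, P m ↔ R (Fin.append (m := p + 1) (n := (q : ℕ) + 1) a m)) →
        exB SN extN θ bl (ov x a v) (upd V q j P))
    (har : ∀ (K : ℕ) (θ : AF K) (v : Fin K → N) (V : RVal N K),
      (∀ (n : Fin (K + 1)) (j : Fin K), V n j ∈ SN n) →
      ∀ (n : ℕ) (x : Fin (n + 1) → Fin K), Function.Injective x →
      ∃ R ∈ SN n, ∀ a, R a ↔ θ.sat extN (ov x a v) V) : False := by
  have hx : Function.Injective (fun _ : Fin (0 + 1) => (0 : Fin 3)) := fun x y _ =>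
    Subsingleton.elim (α := Fin 1) x y
  have hov0 : ∀ (a : Fin (0 + 1) → N) (v : Fin 3 → N), ov (fun _ => (0 : Fin 3)) a v 0 = a 0 :=
    fun a v => hx.extend_apply a _ 0
  let W : RVal Q 3 := fun n _ => Egen n
  obtain ⟨R, ⟨i, Rk, hRk, hRe⟩, hR⟩ := hch 3 thP [] (fun _ => mkN fun _ => q0)
    (mkV fun _ => W) (fun n j => ⟨1, _, fun _ => F_E 0 _, rfl⟩) 0 (fun _ => 0) hx 0 0 (by
      intro a
      -- choose the element symbol by symbol
      choose t ht using fun k => exists_E (rp (a 0) k)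
      refine ⟨intern (fun k => fun b : Fin (0 + 1) → Q => b 0 = t k),
        ⟨2, _, fun k => single_mem (t k), rfl⟩, ?_⟩
      show thP.sat extN _ _
      have e := ov_rep (fun _ : Fin (0 + 1) => (0 : Fin 3)) a (fun _ => mkN fun _ => q0)
      have e2 := upd_mkV (fun _ => W) (0 : Fin 4) (0 : Fin 3)
        (fun k => fun b : Fin (0 + 1) → Q => b 0 = t k)
      rw [e]
      refine (congrArg (AF.sat extN thP _) e2).mpr ?_
      rw [sat_los]
      refine Eventually.of_forall fun k => ?_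
      rw [thP_sat]
      refine ⟨t k, ?_, ?_, ?_⟩
      · simp [upd]
      · have h0 : ov (fun _ : Fin (0 + 1) => (0 : Fin 3)) (fun j => rp (a j) k)
            (fun _ => rp (mkN fun _ => q0) k) 0 = rp (a 0) k := hx.extend_apply _ _ 0
        rw [h0]
        have h1 : upd W (0 : Fin 4) (0 : Fin 3) (fun b : Fin (0 + 1) → Q => b 0 = t k) 1 0
            = Egen 1 := by
          simp [upd, W]
        rw [h1]
        exact ht k
      · intro b' hb'
        simpa [upd] using hb')
  -- `R` is a section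
  have hsec : thR.sat extN (mkv fun _ _ => q0)
      (mkV fun k => upd W (1 : Fin 4) (1 : Fin 3) (Rk k)) := by
    rw [thR_sat]
    intro n
    -- the section at n is a set
    obtain ⟨P, hP, hPe⟩ := har 3 (.rel 1 1 (two 0 1))
      (fun _ => n) (mkV fun k => upd W (1 : Fin 4) (1 : Fin 3) (Rk k)) (by
        intro n' j'
        refine ⟨max 1 i, _, fun k => ?_, rfl⟩
        refine upd_mem (S := F (max 1 i)) (V := W) ?_ 1 1 ?_ n' j'
        · intro n j
          exact F_mono (le_max_left _ _) _ (F_E 0 _)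
        · exact F_mono (le_max_right _ _) _ (hRk k)) 0 (fun _ => 1)
      (fun x y _ => Subsingleton.elim (α := Fin 1) x y)
    have hx1 : Function.Injective (fun _ : Fin (0 + 1) => (1 : Fin 3)) := fun x y _ =>
      Subsingleton.elim (α := Fin 1) x y
    have hP2 : ∀ a : Fin (0 + 1) → N, P a ↔ intern Rk (pr n (a 0)) := by
      intro a
      rw [hPe a]
      have e3 : ov (fun _ : Fin (0 + 1) => (1 : Fin 3)) a (fun _ => n) 0 = n := by
        unfold ov
        rw [Function.extend_apply']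
        rintro ⟨x, hx⟩
        exact absurd hx (by decide)
      have e4 : ov (fun _ : Fin (0 + 1) => (1 : Fin 3)) a (fun _ => n) 1 = a 0 :=
        hx1.extend_apply a _ 0
      have e5 := eval_two extN (ov (fun _ : Fin (0 + 1) => (1 : Fin 3)) a (fun _ => n))
        (mkV fun k => upd W (1 : Fin 4) (1 : Fin 3) (Rk k)) 0 1
      rw [e3, e4] at e5
      have e6 : (mkV fun k => upd W (1 : Fin 4) (1 : Fin 3) (Rk k)) 1 1 = intern Rk := by
        unfold mkV
        congr 1
      show (mkV fun k => upd W (1 : Fin 4) (1 : Fin 3) (Rk k)) 1 1 _ ↔ _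
      rw [← e6]
      exact iff_of_eq (congrArg ((mkV fun k => upd W (1 : Fin 4) (1 : Fin 3) (Rk k)) 1 1) e5)
    have h7 := hR (fun _ => n) P hP (by
      intro m
      rw [hRe, hP2]
      have e7 : (Fin.append (m := 0 + 1) (n := 0 + 1) (fun _ => n) m) = pr n (m 0) := by
        funext i
        refine Fin.addCases (m := 0 + 1) (n := 0 + 1) (fun j => ?_) (fun j => ?_) i
        · rw [Fin.append_left]
          have : j = 0 := Subsingleton.elim (α := Fin 1) j 0
          subst this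
          rfl
        · rw [Fin.append_right]
          have : j = 0 := Subsingleton.elim (α := Fin 1) j 0
          subst this
          rfl
      exact iff_of_eq (congrArg (intern Rk) e7.symm))
    have h8 : thP.sat extN (ov (fun _ => (0 : Fin 3)) (fun _ => n) (fun _ => mkN fun _ => q0))
      (upd (mkV fun _ => W) (0 : Fin 4) (0 : Fin 3) P) := h7
    rw [thP_sat] at h8
    obtain ⟨b, h9, h10, h11⟩ := h8
    have e8 : upd (mkV fun _ => W) (0 : Fin 4) (0 : Fin 3) P 0 0 = P := by simp [upd]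
    have e9 : upd (mkV fun _ => W) (0 : Fin 4) (0 : Fin 3) P 1 0 = mkV (fun _ => W) 1 0 := by
      simp [upd]
    rw [e8, hP2] at h9
    rw [e9, hov0] at h10
    have e10 : (mkV fun k => upd W (1 : Fin 4) (1 : Fin 3) (Rk k)) 1 1 = intern Rk := by
      unfold mkV
      congr 1
    have e11 : (mkV fun k => upd W (1 : Fin 4) (1 : Fin 3) (Rk k)) 1 0 = mkV (fun _ => W) 1 0 := by
      unfold mkV
      congr 1
    refine ⟨b, ?_, ?_, ?_⟩
    · rw [e10]; exact h9
    · rw [e11]; exact h10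
    · intro b' hb'
      apply h11
      rw [e8, hP2]
      rw [e10] at hb'
      exact hb'
  rw [sat_los] at hsec
  obtain ⟨k, hk⟩ := hsec.exists
  rw [thR_sat] at hk
  have e12 : upd W (1 : Fin 4) (1 : Fin 3) (Rk k) 1 1 = Rk k := by simp [upd]
  have e13 : upd W (1 : Fin 4) (1 : Fin 3) (Rk k) 1 0 = Egen 1 := by simp [upd, W]
  refine no_section (hRk k) ?_
  intro n
  obtain ⟨b, h1, h2, h3⟩ := hk n
  rw [e12] at h1
  rw [e13] at h2
  refine ⟨b, h1, h2, ?_⟩
  intro b' hb'
  apply h3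
  rw [e12]
  exact hb'

theorem not_choice : ¬ Sigma11Choice NN := fun hch => not_choice_aux hch arith

end H323.BLV
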